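import Pool.Agent.Helper80K.Ft.Search

/-!
# Total flow time under an energy budget is NP-hard for jobs of arbitrary works

For every real `α > 1`: if there is an efficient algorithm for minimising the total flow time of
jobs with arbitrary works under an energy budget on one processor with power function `s ^ α`, in
the sense that on input jobs, budget `E` and rational `ε > 0` it outputs in polynomial time a plan
of energy at most `E` and total flow time at most `OPT + ε`, then `P = NP`.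
-/

namespace Pool.Agent.Results.MP_04f351_lc.FlowTimeHard

open Pool.Agent.NPC Pool.Agent.NPC.R671.SS Pool.Agent.Helper80K.Ft

theorem jobs_pos (τ : ℕ) (l : List ℕ) (hl : ∀ a ∈ l, 0 < a) :
    ∀ j ∈ jobsFrom τ l, 0 ≤ j.1 ∧ 0 < j.2 := by
  induction l generalizing τ with
  | nil => simp [jobsFrom]
  | cons a l ih =>
    intro j hj
    have ha : 0 < a := hl a List.mem_cons_self
    have ha' : (0 : ℚ) < a := by exact_mod_cast ha
    simp only [jobsFrom, List.mem_cons] at hj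
    rcases hj with rfl | rfl | hj
    · exact ⟨by positivity, by push_cast; positivity⟩
    · exact ⟨by positivity, by push_cast; positivity⟩
    · exact ih _ (fun x hx => hl x (List.mem_cons_of_mem _ hx)) j hj

theorem end_pos {J : List (ℚ × ℚ)} {Q : List (ℕ × ℚ × ℚ × ℚ)} (hQ : IsPlan J (planOf Q))
    (hJ : ∀ j ∈ J, 0 ≤ j.1 ∧ 0 < j.2) : ∀ p ∈ Q, 0 < p.2.2.1 := by
  intro p hp
  obtain ⟨h1, h2, h3, _⟩ := hQ.piece (p.1, (p.2.1 : ℝ), (p.2.2.1 : ℝ), (p.2.2.2 : ℝ))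
    (List.mem_map.2 ⟨p, hp, rfl⟩)
  simp only at h1 h2 h3
  have h4 : 0 ≤ (J.getD p.1 (0, 0)).1 := by
    rw [List.getD_eq_getElem _ _ h1]
    exact (hJ _ (List.getElem_mem h1)).1
  have h5 : (0 : ℝ) ≤ ((J.getD p.1 (0, 0)).1 : ℝ) := by exact_mod_cast h4
  have h6 : (0 : ℝ) < ((p.2.2.1 : ℚ) : ℝ) := by linarith
  exact_mod_cast h6

/-- **Main theorem.** -/
theorem result : ∀ α : ℝ, 1 < α → Efficient α → ∀ L : Set (List Bool), InNP L → InP L := by
  intro α hα hE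
  obtain ⟨f, hf, h⟩ := hE
  obtain ⟨D, a0, b0, k1, hD, ha0, hab, hk1, hc⟩ := main_const hα
  refine HardPr.collapse hardPr_SubsetSum (search_poly hf (D := D) (a0 := a0) (b0 := b0)
    (k1 := k1) hD hab) (fun x hx => ⟨fun hs => ?_, search_sound⟩)
  obtain ⟨l, T⟩ := x
  obtain ⟨hx1, hx2⟩ := hx
  obtain ⟨s, hs, hsT⟩ := hs
  simp only at hx1 hx2 hs hsT
  have hl : ∀ a ∈ l, 0 < a := fun a ha => (hx1 a ha).1
  have hne : l ≠ [] := by
    rintro rfl
    simp at hx2
  have hA : 0 < l.sum := by omega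
  obtain ⟨Es, h1, h2, h3⟩ := hc l.sum T hA (by omega)
  refine search_complete (Es := Es) hab ⟨by rw [Nat.cast_mul]; exact h1,
    by rw [Nat.cast_mul]; exact h2, ?_⟩
  intro m hm1 hm2 hne1 hor
  simp only at hm1 hm2 hne1 hor
  have hD' : (0 : ℝ) < D := by exact_mod_cast hD
  have hm1' : (l.sum * a0 : ℝ) / D ≤ (m : ℝ) / D :=
    div_le_div_of_nonneg_right (by exact_mod_cast hm1) hD'.le
  have hm2' : (m : ℝ) / D ≤ (l.sum * b0 : ℝ) / D :=
    div_le_div_of_nonneg_right (by exact_mod_cast hm2) hD'.le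
  obtain ⟨⟨c, hc1, hc2, hcE⟩, h4⟩ := h3 ((m : ℝ) / D) hm1' hm2'
  have hm0 : 0 < m := lt_of_lt_of_le (Nat.mul_pos hA ha0) hm1
  have hJ := jobs_pos 0 l hl
  have hE0 : (0 : ℚ) < (m : ℚ) / (D : ℚ) := by
    have h5 : (0 : ℚ) < m := by exact_mod_cast hm0
    have h6 : (0 : ℚ) < D := by exact_mod_cast hD
    positivity
  have hε : (0 : ℚ) < ((1 : ℕ) : ℚ) / ((k1 * l.sum + 1 : ℕ) : ℚ) := by positivity
  obtain ⟨Q, hQ1, hQ2, hQ3, hQ4⟩ := h (jobsFrom 0 l) ((m : ℚ) / (D : ℚ))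
    (((1 : ℕ) : ℚ) / ((k1 * l.sum + 1 : ℕ) : ℚ)) ⟨hJ, hE0⟩ hε
  have hask : ask f D k1 l m = sel l (planOf Q) := by
    unfold ask query
    rw [hQ1, unbits_bits]
    exact selQ_eq l (end_pos hQ2 hJ)
  have hcast : (((m : ℚ) / (D : ℚ) : ℚ) : ℝ) = (m : ℝ) / D := by push_cast; rfl
  rw [hcast] at hQ3
  have hE0' : (0 : ℝ) < (m : ℝ) / D := by rw [← hcast]; exact_mod_cast hE0
  have h7 := lower hα hl hne hQ2 hQ3 hE0'
  obtain ⟨S, hS1, hS2, hS3⟩ := upper hα hc1 hc2 hl hne hs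
  rw [hsT, ← hcE] at hS2 hS3
  have h8 := hQ4 S hS1 (by rw [hS2, hcast])
  rw [hS3] at h8
  rw [← hask] at h7
  have h9 := h4 (ask f D k1 l m) (by rw [hask]; exact sel_le l _) hne1 hor
  have h10 : ∀ A : ℕ, 0 < A →
      ((((1 : ℕ) : ℚ) / ((k1 * A + 1 : ℕ) : ℚ) : ℚ) : ℝ) ≤ 1 / (k1 * A) := by
    intro A hA
    have h12 : (0 : ℝ) < k1 := by exact_mod_cast hk1
    have h13 : (0 : ℝ) < A := by exact_mod_cast hA
    have h11 : (0 : ℝ) < k1 * A := by positivity
    push_cast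
    exact div_le_div_of_nonneg_left (by norm_num) h11 (by linarith)
  have h14 := h10 l.sum hA
  linarith

end Pool.Agent.Results.MP_04f351_lc.FlowTimeHard
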